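import Pool.Agent.K7.H99.DC.Jet

/-!
# One differential equation, and the colimit
-/

namespace Pool.Agent.K7.H99.DC

open MvPolynomial

section Solve

variable {R : Type*} [CommRing R] [Algebra ℚ R] {d1 d2 : Derivation ℚ R R} 

theorem jet_iter_C (a : R) (m n : ℕ) :
    (jetDer d2 (0, 1))^[n] ((jetDer d1 (1, 0))^[m] (C a)) = C (d2^[n] (d1^[m] a)) := by
  have h1 : ∀ m, (jetDer d1 (1, 0))^[m] (C a) = C (d1^[m] a) := by
    intro m
    induction m with
    | zero => rfl
    | succ m ih => rw [Function.iterate_succ_apply', ih, jetDer_C, Function.iterate_succ_apply']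
  rw [h1]
  induction n with
  | zero => rfl
  | succ n ih => rw [Function.iterate_succ_apply', ih, jetDer_C, Function.iterate_succ_apply']

theorem jet_iter_X (m n : ℕ) :
    (jetDer d2 (0, 1))^[n] ((jetDer d1 (1, 0))^[m] (X (0, 0) : MvPolynomial (ℕ × ℕ) R)) =
      X (m, n) := by
  have h1 : ∀ m, (jetDer d1 (1, 0))^[m] (X (0, 0) : MvPolynomial (ℕ × ℕ) R) = X (m, 0) := by
    intro m
    induction m with
    | zero => rfl
    | succ m ih => rw [Function.iterate_succ_apply', ih, jetDer_X]; simp
  rw [h1]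
  induction n with
  | zero => rfl
  | succ n ih => rw [Function.iterate_succ_apply', ih, jetDer_X]; simp

end Solve

theorem solve (ι : A →+* ℂ) (y : ℕ × ℕ → ℂ) (hy : Function.Injective (eval₂Hom ι y))
    (P : MvPolynomial (ℕ × ℕ) A) (hP : ∀ a, P ≠ C a) :
    ∃ b : A, eval₂Hom (T p1 p2 ι) (fun v => p2^[v.2] (p1^[v.1] b)) P = 0 := by
  obtain ⟨val, h, Q, Tq, hPQ, hh, hQ⟩ := core (isShift_jetDer p1 (1, 0) (by simp))
    (isShift_jetDer p2 (0, 1) (by simp)) ι y hy P hP
  set δ1 := jetDer p1 (1, 0) with hδ1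
  set δ2 := jetDer p2 (0, 1) with hδ2
  have hc : ∀ x, δ1 (δ2 x) = δ2 (δ1 x) := fun x => jetDer_comm p_comm _ _ x
  set Θ := T δ1 δ2 (eval₂Hom ι val) with hΘ
  have hΘQ : Θ Q = 0 := T_eq_zero _ _ _ _ hQ
  have hΘh : Θ h ≠ 0 := by
    intro h0
    apply hh
    rw [← const_T δ1 δ2, ← hΘ, h0]; simp
  have hΘP : Θ P = 0 := by
    have := congrArg Θ hPQ
    rw [map_mul, map_mul, hΘQ, zero_mul] at this
    exact (mul_eq_zero.1 this).resolve_left hΘh
  refine ⟨Θ (X (0, 0)), ?_⟩
  have : Θ = eval₂Hom (T p1 p2 ι) (fun v => p2^[v.2] (p1^[v.1] (Θ (X (0, 0))))) := by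
    apply MvPolynomial.ringHom_ext
    · intro a
      rw [eval₂Hom_C]
      ext m n
      rw [coeff_coeff_T, coeff_coeff_T, jet_iter_C, ← map_rat_smul C, ← map_rat_smul C]
      simp
    · intro v
      rw [eval₂Hom_X']
      have h1 : ∀ m x, p1^[m] (Θ x) = Θ (δ1^[m] x) := by
        intro m x
        induction m with
        | zero => rfl
        | succ m ih => rw [Function.iterate_succ_apply', ih, p1_T, Function.iterate_succ_apply']
      have h2 : ∀ m x, p2^[m] (Θ x) = Θ (δ2^[m] x) := by
        intro m x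
        induction m with
        | zero => rfl
        | succ m ih => rw [Function.iterate_succ_apply', ih, p2_T _ _ _ hc,
            Function.iterate_succ_apply']
      rw [h1, h2, jet_iter_X]
  rw [← this]
  exact hΘP

section Colim

variable {R : Type} [CommRing R] (τ : R →+* R)

/-- the directed system -/
def sys (i j : ℕ) (_ : i ≤ j) : R →+* R := τ ^ (j - i)

instance : DirectedSystem (fun _ : ℕ => R) (fun i j h => sys τ i j h) where
  map_self i x := by simp [sys]
  map_map k j i hij hjk x := by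
    simp only [sys]
    rw [← Function.comp_apply (f := ⇑(τ ^ (k - j))), ← RingHom.coe_mul, ← pow_add]
    congr 2
    omega

theorem exists_colim (hτ : Function.Injective τ) (d1 d2 : R → R) (h1 : ∀ a, d1 (τ a) = τ (d1 a))
    (h2 : ∀ a, d2 (τ a) = τ (d2 a)) :
    ∃ (S : Type) (_ : CommRing S) (φ : ℕ → R →+* S) (D1 D2 : S → S),
      (∀ i a, φ (i + 1) (τ a) = φ i a) ∧ (∀ s, ∃ i a, φ i a = s) ∧
      (∀ i, Function.Injective (φ i)) ∧ (∀ i a, D1 (φ i a) = φ i (d1 a)) ∧
      (∀ i a, D2 (φ i a) = φ i (d2 a)) := by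
  have hpow : ∀ (d : R → R), (∀ a, d (τ a) = τ (d a)) → ∀ k a, d ((τ ^ k) a) = (τ ^ k) (d a) := by
    intro d hd k
    induction k with
    | zero => intro a; simp
    | succ k ih => intro a; rw [pow_succ', RingHom.coe_mul, Function.comp_apply, Function.comp_apply, hd, ih]
  have hinj : ∀ i j (h : i ≤ j), Function.Injective (sys τ i j h) := by
    intro i j h
    simp only [sys]
    induction j - i with
    | zero => intro a b hab; simpa using hab
    | succ k ih =>
      intro a b hab
      rw [pow_succ', RingHom.coe_mul, Function.comp_apply, Function.comp_apply] at hab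
      exact ih (hτ hab)
  let S := DirectLimit (fun _ : ℕ => R) (fun i j h => sys τ i j h)
  let mk : ℕ → R → S := fun i a => ⟦⟨i, a⟩⟧
  let φ : ℕ → R →+* S := fun i =>
    { toFun := mk i
      map_one' := (DirectLimit.one_def i).symm
      map_mul' := fun a b => by
        have := DirectLimit.mul_def (f := fun i j h => sys τ i j h) i a b
        exact this.symm
      map_zero' := (DirectLimit.zero_def i).symm
      map_add' := fun a b => by
        have := DirectLimit.add_def (f := fun i j h => sys τ i j h) i a b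
        exact this.symm }
  refine ⟨S, inferInstance, φ,
    DirectLimit.map _ _ (fun _ => d1) (fun i j h x => ?_),
    DirectLimit.map _ _ (fun _ => d2) (fun i j h x => ?_), ?_, ?_, ?_, ?_, ?_⟩
  · exact (hpow d1 h1 _ x).symm
  · exact (hpow d2 h2 _ x).symm
  · intro i a
    have := DirectLimit.mk_apply (f := fun i j h => sys τ i j h) i (i + 1) a (Nat.le_succ i)
    simp [sys] at this
    exact this
  · intro s
    obtain ⟨i, a, rfl⟩ := DirectLimit.exists_eq_mk _ s
    exact ⟨i, a, rfl⟩
  · intro i
    exact DirectLimit.mk_injective _ hinj i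
  · intro i a; rfl
  · intro i a; rfl

end Colim

end Pool.Agent.K7.H99.DC
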