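import Mathlib

/-!
# Solving one differential polynomial equation (core lemma)
-/

namespace Pool.Agent.K7.H99.DC

open MvPolynomial

/-- An orderly ranking of the jet variables. -/
def rk (v : ℕ × ℕ) : ℕ ×ₗ ℕ := toLex (v.1 + v.2, v.1)

theorem rk_lt_iff {v w : ℕ × ℕ} :
    rk v < rk w ↔ v.1 + v.2 < w.1 + w.2 ∨ (v.1 + v.2 = w.1 + w.2 ∧ v.1 < w.1) := by
  simp [rk, Prod.Lex.lt_iff]

theorem rk_inj {v w : ℕ × ℕ} (h : rk v = rk w) : v = w := by
  have h1 := congrArg ofLex h
  simp only [rk, ofLex_toLex, Prod.mk.injEq] at h1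
  ext <;> omega

theorem rk_le_iff {v w : ℕ × ℕ} : rk v ≤ rk w ↔ rk v < rk w ∨ v = w := by
  constructor
  · intro h
    rcases h.lt_or_eq with h | h
    · exact Or.inl h
    · exact Or.inr (rk_inj h)
  · rintro (h | h)
    · exact h.le
    · exact h ▸ le_refl _

theorem rk_add_lt {v w : ℕ × ℕ} (e : ℕ × ℕ) (h : rk v < rk w) : rk (v + e) < rk (w + e) := by
  rw [rk_lt_iff] at h ⊢
  simp only [Prod.fst_add, Prod.snd_add]
  omega

theorem rk_lt_add (v : ℕ × ℕ) {e : ℕ × ℕ} (he : e ≠ 0) : rk v < rk (v + e) := by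
  rw [rk_lt_iff]
  simp only [Prod.fst_add, Prod.snd_add]
  have : e.1 ≠ 0 ∨ e.2 ≠ 0 := by
    by_contra hcon
    push Not at hcon
    exact he (Prod.ext hcon.1 hcon.2)
  omega

section

variable {A : Type*} [CommRing A]

theorem supp_induction {s : Set (ℕ × ℕ)} {p : MvPolynomial (ℕ × ℕ) A → Prop}
    (hC : ∀ a, p (C a)) (hX : ∀ v ∈ s, p (X v)) (hadd : ∀ f g, p f → p g → p (f + g))
    (hmul : ∀ f g, f ∈ supported A s → g ∈ supported A s → p f → p g → p (f * g))
    {f : MvPolynomial (ℕ × ℕ) A} (hf : f ∈ supported A s) : p f := by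
  rw [supported_eq_adjoin_X] at hf
  refine Algebra.adjoin_induction (p := fun x _ => p x) ?_ ?_ ?_ ?_ hf
  · rintro x ⟨v, hv, rfl⟩
    exact hX v hv
  · intro r
    exact hC r
  · intro x y _ _ hx hy
    exact hadd x y hx hy
  · intro x y hx' hy' hx hy
    exact hmul x y hx' hy' hx hy

theorem C_mem (s : Set (ℕ × ℕ)) (a : A) : (C a : MvPolynomial (ℕ × ℕ) A) ∈ supported A s :=
  (supported A s).algebraMap_mem a

theorem X_mem {s : Set (ℕ × ℕ)} {v : ℕ × ℕ} (hv : v ∈ s) :
    (X v : MvPolynomial (ℕ × ℕ) A) ∈ supported A s := by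
  rw [supported_eq_adjoin_X]
  exact Algebra.subset_adjoin ⟨v, hv, rfl⟩

theorem pderiv_mem {s : Set (ℕ × ℕ)} {f : MvPolynomial (ℕ × ℕ) A} (hf : f ∈ supported A s)
    (w : ℕ × ℕ) : pderiv w f ∈ supported A s := by
  refine supp_induction (p := fun f => pderiv w f ∈ supported A s) ?_ ?_ ?_ ?_ hf
  · intro a; simp
  · intro v _
    rw [pderiv_X]
    by_cases h : v = w
    · subst h; simp
    · rw [Pi.single_eq_of_ne h]; exact zero_mem _
  · intro f g hf hg
    rw [map_add]; exact add_mem hf hg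
  · intro f g hf' hg' hf hg
    rw [Derivation.leibniz]
    exact add_mem (mul_mem hf' hg) (mul_mem hg' hf)

theorem pderiv_eq_zero {s : Set (ℕ × ℕ)} {f : MvPolynomial (ℕ × ℕ) A} (hf : f ∈ supported A s)
    {w : ℕ × ℕ} (hw : w ∉ s) : pderiv w f = 0 := by
  refine supp_induction (p := fun f => pderiv w f = 0) ?_ ?_ ?_ ?_ hf
  · intro a; simp
  · intro v hv
    rw [pderiv_X, Pi.single_eq_of_ne]
    rintro rfl; exact hw hv
  · intro f g hf hg
    rw [map_add, hf, hg, add_zero]
  · intro f g _ _ hf hg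
    rw [Derivation.leibniz, hf, hg, smul_zero, smul_zero, add_zero]

theorem eval_congr {K : Type*} [CommRing K] (ι : A →+* K) {g g' : ℕ × ℕ → K} {s : Set (ℕ × ℕ)}
    {f : MvPolynomial (ℕ × ℕ) A} (hf : f ∈ supported A s) (h : ∀ v ∈ s, g v = g' v) :
    eval₂Hom ι g f = eval₂Hom ι g' f := by
  refine supp_induction (p := fun f => eval₂Hom ι g f = eval₂Hom ι g' f) ?_ ?_ ?_ ?_ hf
  · intro a; simp
  · intro v hv; simpa using h v hv
  · intro f g hf hg
    rw [map_add, map_add, hf, hg]
  · intro f g _ _ hf hg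
    rw [map_mul, map_mul, hf, hg]

end

section Shift

variable {A : Type*} [CommRing A] [Algebra ℚ A]

/-- A derivation of the jet ring extending one of the coefficients and shifting jet variables. -/
structure IsShift (δ : Derivation ℚ (MvPolynomial (ℕ × ℕ) A) (MvPolynomial (ℕ × ℕ) A))
    (e : ℕ × ℕ) : Prop where
  hC : ∀ a, ∃ a', δ (C a) = C a'
  hX : ∀ v, δ (X v) = X (v + e)
  he : e ≠ 0

variable {δ : Derivation ℚ (MvPolynomial (ℕ × ℕ) A) (MvPolynomial (ℕ × ℕ) A)} {e : ℕ × ℕ}

theorem IsShift.step (hδ : IsShift δ e) (w : ℕ × ℕ) {f : MvPolynomial (ℕ × ℕ) A}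
    (hf : f ∈ supported A {v | rk v ≤ rk w}) :
    δ f - pderiv w f * X (w + e) ∈ supported A {v | rk v < rk (w + e)} := by
  have hsub : supported A {v | rk v ≤ rk w} ≤ supported A {v | rk v < rk (w + e)} :=
    supported_mono fun v hv => lt_of_le_of_lt hv (rk_lt_add w hδ.he)
  refine supp_induction (p := fun f => δ f - pderiv w f * X (w + e) ∈
    supported A {v | rk v < rk (w + e)}) ?_ ?_ ?_ ?_ hf
  · intro a
    obtain ⟨a', ha'⟩ := hδ.hC a
    rw [ha', pderiv_C, zero_mul, sub_zero]
    exact C_mem _ _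
  · intro v hv
    rw [hδ.hX, pderiv_X]
    by_cases h : v = w
    · subst h
      rw [Pi.single_eq_same, one_mul, sub_self]
      exact zero_mem _
    · rw [Pi.single_eq_of_ne h, zero_mul, sub_zero]
      have hv' : rk v < rk w := by
        rcases rk_le_iff.1 hv with h' | h'
        · exact h'
        · exact absurd h' h
      exact X_mem (rk_add_lt e hv')
  · intro f g hf hg
    have : δ (f + g) - pderiv w (f + g) * X (w + e) =
        (δ f - pderiv w f * X (w + e)) + (δ g - pderiv w g * X (w + e)) := by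
      rw [map_add, map_add]; ring
    rw [this]; exact add_mem hf hg
  · intro f g hf' hg' hf hg
    have : δ (f * g) - pderiv w (f * g) * X (w + e) =
        f * (δ g - pderiv w g * X (w + e)) + g * (δ f - pderiv w f * X (w + e)) := by
      rw [Derivation.leibniz, Derivation.leibniz]
      simp only [smul_eq_mul]; ring
    rw [this]; exact add_mem (mul_mem (hsub hf') hg) (mul_mem (hsub hg') hf)

theorem IsShift.step_mem (hδ : IsShift δ e) (w : ℕ × ℕ) {f : MvPolynomial (ℕ × ℕ) A}
    (hf : f ∈ supported A {v | rk v ≤ rk w}) :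
    δ f ∈ supported A {v | rk v ≤ rk (w + e)} := by
  have h1 := hδ.step w hf
  have hsub : supported A {v | rk v < rk (w + e)} ≤ supported A {v | rk v ≤ rk (w + e)} :=
    supported_mono fun v (hv : rk v < rk (w + e)) => hv.le
  have hsub2 : supported A {v | rk v ≤ rk w} ≤ supported A {v | rk v ≤ rk (w + e)} :=
    supported_mono fun v hv => (lt_of_le_of_lt hv (rk_lt_add w hδ.he)).le
  have : δ f = (δ f - pderiv w f * X (w + e)) + pderiv w f * X (w + e) := by ring
  rw [this]
  exact add_mem (hsub h1) (mul_mem (hsub2 (pderiv_mem hf w)) (X_mem (by simp)))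

theorem IsShift.step_pderiv (hδ : IsShift δ e) (w : ℕ × ℕ) {f : MvPolynomial (ℕ × ℕ) A}
    (hf : f ∈ supported A {v | rk v ≤ rk w}) :
    pderiv (w + e) (δ f) = pderiv w f := by
  have h1 := hδ.step w hf
  have h2 : pderiv (w + e) (δ f - pderiv w f * X (w + e)) = 0 :=
    pderiv_eq_zero h1 (by simp)
  have h3 : pderiv (w + e) (pderiv w f) = 0 :=
    pderiv_eq_zero (pderiv_mem hf w) (by
      simp only [Set.mem_ofPred_eq, not_le]
      exact rk_lt_add w hδ.he)
  rw [map_sub, Derivation.leibniz, h3, pderiv_X_self, smul_zero, add_zero, smul_eq_mul, mul_one,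
    sub_eq_zero] at h2
  exact h2

end Shift

section Iter

variable {A : Type*} [CommRing A] [Algebra ℚ A]
variable {δ1 δ2 : Derivation ℚ (MvPolynomial (ℕ × ℕ) A) (MvPolynomial (ℕ × ℕ) A)}

theorem iter_mem (h1 : IsShift δ1 (1, 0)) (h2 : IsShift δ2 (0, 1)) (u : ℕ × ℕ)
    {Q : MvPolynomial (ℕ × ℕ) A} (hQ : Q ∈ supported A {v | rk v ≤ rk u}) (m n : ℕ) :
    δ2^[n] (δ1^[m] Q) ∈ supported A {v | rk v ≤ rk (u + (m, n))} ∧
      pderiv (u + (m, n)) (δ2^[n] (δ1^[m] Q)) = pderiv u Q := by
  induction n with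
  | zero =>
    induction m with
    | zero =>
      have : u + ((0, 0) : ℕ × ℕ) = u := add_zero u
      simp only [Function.iterate_zero, id_eq, this]
      exact ⟨hQ, trivial⟩
    | succ m ih =>
      have he : u + ((m + 1, 0) : ℕ × ℕ) = (u + (m, 0)) + (1, 0) := by
        ext <;> simp [add_assoc]
      simp only [Function.iterate_zero, id_eq, Function.iterate_succ_apply', he] at ih ⊢
      exact ⟨h1.step_mem _ ih.1, (h1.step_pderiv _ ih.1).trans ih.2⟩
  | succ n ih =>
    have he : u + ((m, n + 1) : ℕ × ℕ) = (u + (m, n)) + (0, 1) := by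
      ext <;> simp [add_assoc]
    simp only [Function.iterate_succ_apply', he] at ih ⊢
    exact ⟨h2.step_mem _ ih.1, (h2.step_pderiv _ ih.1).trans ih.2⟩

theorem iter_rem (h1 : IsShift δ1 (1, 0)) (h2 : IsShift δ2 (0, 1)) (u : ℕ × ℕ)
    {Q : MvPolynomial (ℕ × ℕ) A} (hQ : Q ∈ supported A {v | rk v ≤ rk u}) (m n : ℕ)
    (hmn : (m, n) ≠ ((0, 0) : ℕ × ℕ)) :
    δ2^[n] (δ1^[m] Q) - pderiv u Q * X (u + (m, n)) ∈
      supported A {v | rk v < rk (u + (m, n))} := by
  cases n with
  | zero =>
    cases m with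
    | zero => exact absurd rfl hmn
    | succ m =>
      have he : u + ((m + 1, 0) : ℕ × ℕ) = (u + (m, 0)) + (1, 0) := by
        ext <;> simp [add_assoc]
      have ih := iter_mem h1 h2 u hQ m 0
      have := h1.step _ ih.1
      rw [ih.2] at this
      rw [he]
      simpa only [Function.iterate_zero, id_eq, Function.iterate_succ_apply'] using this
  | succ n =>
    have he : u + ((m, n + 1) : ℕ × ℕ) = (u + (m, n)) + (0, 1) := by
      ext <;> simp [add_assoc]
    have ih := iter_mem h1 h2 u hQ m n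
    have := h2.step _ ih.1
    rw [ih.2] at this
    rw [he]
    simpa only [Function.iterate_succ_apply'] using this

end Iter

section Main

variable {A : Type*} [CommRing A]

/-- Pseudo-division by a polynomial of minimal degree vanishing at `a`. -/
theorem pseudo_div {B K : Type*} [CommRing B] [IsDomain B] [Field K] (e0 : B →+* K)
    (a : K) (Q : Polynomial B) (hQ0 : 0 < Q.natDegree)
    (hQa : Q.eval₂ e0 a = 0)
    (hmin : ∀ q : Polynomial B, q.eval₂ e0 a = 0 → q.natDegree < Q.natDegree → q = 0)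
    (p : Polynomial B) (hp : p.eval₂ e0 a = 0) :
    ∃ h : B, h ≠ 0 ∧ ∃ T, Polynomial.C h * p = Q * T := by
  induction hn : p.natDegree using Nat.strong_induction_on generalizing p with
  | _ n ih =>
    by_cases hlt : p.natDegree < Q.natDegree
    · have := hmin p hp hlt
      exact ⟨1, one_ne_zero, 0, by simp [this]⟩
    · push Not at hlt
      have hd := Polynomial.natDegree_cancelLeads_lt_of_natDegree_le_natDegree hlt
        (lt_of_lt_of_le hQ0 hlt)
      have hz : Q.natDegree - p.natDegree = 0 := by omega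
      have hcl : Q.cancelLeads p = Polynomial.C Q.leadingCoeff * p -
          Polynomial.C p.leadingCoeff * Polynomial.X ^ (p.natDegree - Q.natDegree) * Q := by
        rw [Polynomial.cancelLeads, hz, pow_zero, mul_one]
      have hv : (Q.cancelLeads p).eval₂ e0 a = 0 := by
        rw [hcl, Polynomial.eval₂_sub, Polynomial.eval₂_mul, Polynomial.eval₂_mul, hp, hQa]
        simp
      obtain ⟨h, hh, T, hT⟩ := ih _ (hn ▸ hd) _ hv rfl
      refine ⟨h * Q.leadingCoeff, ?_, T + Polynomial.C (h * p.leadingCoeff) *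
        Polynomial.X ^ (p.natDegree - Q.natDegree), ?_⟩
      · apply mul_ne_zero hh
        rw [Polynomial.leadingCoeff_ne_zero]
        rintro rfl
        simp at hQ0
      · rw [mul_add, ← hT, hcl, Polynomial.C_mul, Polynomial.C_mul]
        ring

theorem exists_min {B K : Type*} [CommRing B] [IsDomain B] [CharZero B] [Field K] (e0 : B →+* K)
    (he0 : Function.Injective e0) (a : K) (p : Polynomial B) (hp0 : p ≠ 0)
    (hp : p.eval₂ e0 a = 0) :
    ∃ Q : Polynomial B, Q.eval₂ e0 a = 0 ∧ (Polynomial.derivative Q).eval₂ e0 a ≠ 0 ∧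
      ∃ h : B, h ≠ 0 ∧ ∃ T, Polynomial.C h * p = Q * T := by
  classical
  have hex : ∃ n, ∃ q : Polynomial B, q ≠ 0 ∧ q.eval₂ e0 a = 0 ∧ q.natDegree = n :=
    ⟨_, p, hp0, hp, rfl⟩
  obtain ⟨Q, hQ0, hQa, hQn⟩ := Nat.find_spec hex
  have hmin : ∀ q : Polynomial B, q.eval₂ e0 a = 0 → q.natDegree < Q.natDegree → q = 0 := by
    intro q hq hlt
    by_contra hne
    exact Nat.find_min hex (m := q.natDegree) (hQn ▸ hlt) ⟨q, hne, hq, rfl⟩
  have hpos : 0 < Q.natDegree := by
    by_contra hcon
    have h0 : Q.natDegree = 0 := by omega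
    rw [Polynomial.eq_C_of_natDegree_eq_zero h0, Polynomial.eval₂_C] at hQa
    have : Q.coeff 0 = 0 := he0 (by rw [hQa, map_zero])
    apply hQ0
    rw [Polynomial.eq_C_of_natDegree_eq_zero h0, this, Polynomial.C_0]
  refine ⟨Q, hQa, ?_, pseudo_div e0 a Q hpos hQa hmin p hp⟩
  intro hder
  have hlt : (Polynomial.derivative Q).natDegree < Q.natDegree :=
    Polynomial.natDegree_derivative_lt hpos.ne'
  have := hmin _ hder hlt
  have h0 := Polynomial.derivative_eq_zero.1 this
  omega

theorem exists_poly (u : ℕ × ℕ) {P : MvPolynomial (ℕ × ℕ) A}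
    (hP : P ∈ supported A {v | rk v ≤ rk u}) :
    ∃ p : Polynomial (supported A {v | rk v < rk u}),
      Polynomial.aeval (X u : MvPolynomial (ℕ × ℕ) A) p = P := by
  refine supp_induction (p := fun P => ∃ p : Polynomial (supported A {v | rk v < rk u}),
      Polynomial.aeval (X u : MvPolynomial (ℕ × ℕ) A) p = P) ?_ ?_ ?_ ?_ hP
  · intro a
    exact ⟨Polynomial.C ⟨C a, C_mem _ _⟩, by rw [Polynomial.aeval_C]; rfl⟩
  · intro v hv
    rcases rk_le_iff.1 hv with h | h
    · exact ⟨Polynomial.C ⟨X v, X_mem h⟩, by rw [Polynomial.aeval_C]; rfl⟩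
    · exact ⟨Polynomial.X, by rw [Polynomial.aeval_X, h]⟩
  · rintro f g ⟨p, rfl⟩ ⟨q, rfl⟩
    exact ⟨p + q, map_add _ _ _⟩
  · rintro f g _ _ ⟨p, rfl⟩ ⟨q, rfl⟩
    exact ⟨p * q, map_mul _ _ _⟩

theorem aeval_mem (u : ℕ × ℕ) (p : Polynomial (supported A {v | rk v < rk u})) :
    Polynomial.aeval (X u : MvPolynomial (ℕ × ℕ) A) p ∈ supported A {v | rk v ≤ rk u} := by
  have hsub : supported A {v | rk v < rk u} ≤ supported A {v | rk v ≤ rk u} :=
    supported_mono fun v (hv : rk v < rk u) => hv.le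
  induction p using Polynomial.induction_on' with
  | add p q hp hq => rw [map_add]; exact add_mem hp hq
  | monomial n c =>
    rw [Polynomial.aeval_monomial]
    have hX : (X u : MvPolynomial (ℕ × ℕ) A) ∈ supported A {v | rk v ≤ rk u} :=
      X_mem (by simp)
    exact mul_mem (hsub c.2) (pow_mem hX _)

theorem pderiv_aeval (u : ℕ × ℕ) (p : Polynomial (supported A {v | rk v < rk u})) :
    pderiv u (Polynomial.aeval (X u : MvPolynomial (ℕ × ℕ) A) p) =
      Polynomial.aeval (X u : MvPolynomial (ℕ × ℕ) A) (Polynomial.derivative p) := by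
  induction p using Polynomial.induction_on' with
  | add p q hp hq => rw [map_add, map_add, hp, hq, map_add, map_add]
  | monomial n c =>
    rw [Polynomial.aeval_monomial, Polynomial.derivative_monomial, Polynomial.aeval_monomial,
      Derivation.leibniz]
    have : pderiv u (algebraMap (supported A {v | rk v < rk u}) (MvPolynomial (ℕ × ℕ) A) c) = 0 :=
      pderiv_eq_zero c.2 (by simp)
    rw [this, smul_zero, add_zero, Derivation.leibniz_pow, pderiv_X_self, map_mul, map_natCast]
    simp only [smul_eq_mul, nsmul_eq_mul, mul_one]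
    ring

theorem eval_aeval (u : ℕ × ℕ) (ι : A →+* ℂ) (y val : ℕ × ℕ → ℂ)
    (hv : ∀ v, rk v < rk u → val v = y v) (p : Polynomial (supported A {v | rk v < rk u})) :
    eval₂Hom ι val (Polynomial.aeval (X u : MvPolynomial (ℕ × ℕ) A) p) =
      p.eval₂ ((eval₂Hom ι y).comp
        (algebraMap (supported A {v | rk v < rk u}) (MvPolynomial (ℕ × ℕ) A))) (val u) := by
  induction p using Polynomial.induction_on' with
  | add p q hp hq => rw [map_add, map_add, hp, hq, Polynomial.eval₂_add]
  | monomial n c =>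
    rw [Polynomial.aeval_monomial, Polynomial.eval₂_monomial, map_mul, map_pow]
    congr 1
    · exact eval_congr ι c.2 hv
    · simp

variable [IsDomain A] [CharZero A] [Algebra ℚ A]
variable {δ1 δ2 : Derivation ℚ (MvPolynomial (ℕ × ℕ) A) (MvPolynomial (ℕ × ℕ) A)}

theorem core (h1 : IsShift δ1 (1, 0)) (h2 : IsShift δ2 (0, 1)) (ι : A →+* ℂ) (y : ℕ × ℕ → ℂ)
    (hy : Function.Injective (eval₂Hom ι y)) (P : MvPolynomial (ℕ × ℕ) A) (hP : ∀ a, P ≠ C a) :
    ∃ (val : ℕ × ℕ → ℂ) (h Q T : MvPolynomial (ℕ × ℕ) A), h * P = Q * T ∧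
      eval₂Hom ι val h ≠ 0 ∧ ∀ m n, eval₂Hom ι val (δ2^[n] (δ1^[m] Q)) = 0 := by
  classical
  -- the leader
  have hne : P.vars.Nonempty := by
    rw [Finset.nonempty_iff_ne_empty]
    intro hemp
    have hm := mem_supported_vars P
    rw [hemp, Finset.coe_empty, supported_empty] at hm
    obtain ⟨a, ha⟩ := Algebra.mem_bot.1 hm
    exact hP a ha.symm
  obtain ⟨u, huP, hu⟩ := Finset.exists_max_image P.vars rk hne
  have hPle : P ∈ supported A {v | rk v ≤ rk u} := by
    rw [mem_supported]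
    intro v hv
    exact hu v hv
  obtain ⟨p, hp⟩ := exists_poly u hPle
  set e0 : supported A {v | rk v < rk u} →+* ℂ := (eval₂Hom ι y).comp
    (algebraMap (supported A {v | rk v < rk u}) (MvPolynomial (ℕ × ℕ) A)) with he0
  have he0i : Function.Injective e0 := by
    intro b c hbc
    exact Subtype.ext (hy hbc)
  have hpdeg : p.degree ≠ 0 := by
    intro hdeg
    rw [Polynomial.eq_C_of_degree_eq_zero hdeg, Polynomial.aeval_C] at hp
    have hPlt : P ∈ supported A {v | rk v < rk u} := by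
      rw [← hp]; exact (p.coeff 0).2
    rw [mem_supported] at hPlt
    have huu : u ∈ {v | rk v < rk u} := hPlt huP
    simp at huu
  obtain ⟨a, ha⟩ := IsAlgClosed.exists_root (p.map e0)
    (by rwa [Polynomial.degree_map_eq_of_injective he0i])
  have hpa : p.eval₂ e0 a = 0 := by
    rw [Polynomial.IsRoot, Polynomial.eval_map] at ha
    exact ha
  have hp0 : p ≠ 0 := by
    rintro rfl
    rw [map_zero] at hp
    exact hP 0 (by rw [← hp, C_0])
  obtain ⟨Q, hQa, hQd, h, hh, T, hT⟩ := exists_min e0 he0i a p hp0 hpa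
  set s0 := (Polynomial.derivative Q).eval₂ e0 a with hs0
  set Qh := Polynomial.aeval (X u : MvPolynomial (ℕ × ℕ) A) Q with hQh
  -- values
  let rem : ℕ × ℕ → MvPolynomial (ℕ × ℕ) A := fun α =>
    δ2^[α.2] (δ1^[α.1] Qh) - pderiv u Qh * X (u + α)
  let F : (ℕ × ℕ → ℂ) → ℕ × ℕ → ℂ := fun f v =>
    if rk v < rk u then y v else if v = u then a else
      if u ≤ v then -(eval₂Hom ι f (rem (v - u))) / s0 else 0
  have hwf : WellFounded (InvImage (· < ·) rk) := InvImage.wf _ wellFounded_lt
  let val : ℕ × ℕ → ℂ := hwf.fix (C := fun _ => ℂ) fun v g =>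
    F (fun w => if hw : rk w < rk v then g w hw else 0) v
  have hval : ∀ v, val v = F (fun w => if rk w < rk v then val w else 0) v := by
    intro v
    have := hwf.fix_eq (C := fun _ => ℂ) (fun v g =>
      F (fun w => if hw : rk w < rk v then g w hw else 0) v) v
    refine this.trans ?_
    congr 1
  have hvlt : ∀ v, rk v < rk u → val v = y v := by
    intro v hv
    rw [hval]
    simp only [F, hv, if_true]
  have hvu : val u = a := by
    rw [hval]
    simp only [F, lt_irrefl, if_false, if_true]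
  have hev0 : eval₂Hom ι val Qh = 0 := by
    rw [hQh, eval_aeval u ι y val hvlt, hvu]
    exact hQa
  have hev1 : eval₂Hom ι val (pderiv u Qh) = s0 := by
    rw [hQh, pderiv_aeval, eval_aeval u ι y val hvlt, hvu]
  refine ⟨val, h, Qh, Polynomial.aeval (X u : MvPolynomial (ℕ × ℕ) A) T, ?_, ?_, ?_⟩
  · have := congrArg (Polynomial.aeval (X u : MvPolynomial (ℕ × ℕ) A)) hT
    rw [map_mul, map_mul, hp, Polynomial.aeval_C] at this
    exact this
  · have : eval₂Hom ι val (h : MvPolynomial (ℕ × ℕ) A) = e0 h := eval_congr ι h.2 hvlt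
    rw [this]
    intro h0
    exact hh (he0i (by rw [h0, map_zero]))
  · intro m n
    by_cases hmn : (m, n) = ((0, 0) : ℕ × ℕ)
    · obtain ⟨rfl, rfl⟩ := Prod.mk.inj hmn
      exact hev0
    · have hrem : rem (m, n) ∈ supported A {v | rk v < rk (u + (m, n))} :=
        iter_rem h1 h2 u (aeval_mem u Q) m n hmn
      have heq : δ2^[n] (δ1^[m] Qh) = pderiv u Qh * X (u + (m, n)) + rem (m, n) := by
        simp only [rem]; ring
      rw [heq, map_add, map_mul, hev1, eval₂Hom_X']
      have hlt : rk u < rk (u + (m, n)) := rk_lt_add u hmn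
      have hv : val (u + (m, n)) = -(eval₂Hom ι val (rem (m, n))) / s0 := by
        rw [hval]
        have hne' : u + (m, n) ≠ u := fun h' => by rw [h'] at hlt; exact lt_irrefl _ hlt
        have hle : u ≤ u + (m, n) := le_add_of_nonneg_right (Prod.le_def.2 ⟨Nat.zero_le _, Nat.zero_le _⟩)
        simp only [F, hlt.not_gt, if_false, hne', hle, if_true]
        have hsub : u + (m, n) - u = (m, n) := by
          ext <;> simp
        rw [hsub]
        congr 2
        refine eval_congr ι hrem ?_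
        intro v hv
        simp only [Set.mem_ofPred_eq] at hv
        simp [hv]
      rw [hv]
      field_simp
      ring

end Main

end Pool.Agent.K7.H99.DC
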