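import Pool.Agent.K7.H99.DC.Taylor
import Pool.Agent.K7.H99.DC.Core

/-!
# Derivations of the jet ring, and an embedding of a big domain into `ℂ`
-/

namespace Pool.Agent.K7.H99.DC

open MvPolynomial Cardinal

section Jet

variable {R : Type*} [CommRing R] [Algebra ℚ R] (d : Derivation ℚ R R) (e : ℕ × ℕ)

/-- `R → R[ε]`, `a ↦ a + ε d a`, composed with constants. -/
noncomputable def dualC : R →+* TrivSqZeroExt (MvPolynomial (ℕ × ℕ) R) (MvPolynomial (ℕ × ℕ) R) where
  toFun a := TrivSqZeroExt.inl (C a) + TrivSqZeroExt.inr (C (d a))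
  map_one' := by ext <;> simp
  map_mul' a b := by
    ext
    · simp
    · simp [mul_comm]
  map_zero' := by ext <;> simp
  map_add' a b := by ext <;> simp

/-- the lift to the jet ring -/
noncomputable def dualHom : MvPolynomial (ℕ × ℕ) R →+*
    TrivSqZeroExt (MvPolynomial (ℕ × ℕ) R) (MvPolynomial (ℕ × ℕ) R) :=
  eval₂Hom (dualC d) fun v => TrivSqZeroExt.inl (X v) + TrivSqZeroExt.inr (X (v + e))

theorem fst_dualHom (f : MvPolynomial (ℕ × ℕ) R) : (dualHom d e f).fst = f := by
  have : (TrivSqZeroExt.fstHom (MvPolynomial (ℕ × ℕ) R) (MvPolynomial (ℕ × ℕ) R)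
      (MvPolynomial (ℕ × ℕ) R) : _ →+* MvPolynomial (ℕ × ℕ) R).comp (dualHom d e) =
      RingHom.id _ := by
    apply MvPolynomial.ringHom_ext
    · intro a
      simp [dualHom, dualC]
    · intro v
      simp [dualHom]
  exact congrArg (fun g => g f) this

/-- The derivation of the jet ring extending `d` and shifting the variables by `e`. -/
noncomputable def jetDer : Derivation ℚ (MvPolynomial (ℕ × ℕ) R) (MvPolynomial (ℕ × ℕ) R) :=
  mkDer (fun f => (dualHom d e f).snd)
    (by intro x y; rw [map_add, TrivSqZeroExt.snd_add])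
    (by
      intro x y
      rw [map_mul, TrivSqZeroExt.snd_mul, fst_dualHom, fst_dualHom]
      simp [mul_comm])

@[simp] theorem jetDer_C (a : R) : jetDer d e (C a) = C (d a) := by
  simp [jetDer, dualHom, dualC]

@[simp] theorem jetDer_X (v : ℕ × ℕ) : jetDer d e (X v) = X (v + e) := by
  simp [jetDer, dualHom]

theorem isShift_jetDer (he : e ≠ 0) : IsShift (jetDer d e) e :=
  ⟨fun a => ⟨d a, jetDer_C d e a⟩, jetDer_X d e, he⟩

theorem jetDer_comm {d1 d2 : Derivation ℚ R R} (h : ∀ x, d1 (d2 x) = d2 (d1 x))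
    (e1 e2 : ℕ × ℕ) (f : MvPolynomial (ℕ × ℕ) R) :
    jetDer d1 e1 (jetDer d2 e2 f) = jetDer d2 e2 (jetDer d1 e1 f) := by
  induction f using MvPolynomial.induction_on with
  | C a => simp [h]
  | add p q hp hq => simp [hp, hq]
  | mul_X p v hp =>
    have : v + e2 + e1 = v + e1 + e2 := by abel
    simp only [Derivation.leibniz, smul_eq_mul, map_add, hp, jetDer_X, this]
    ring

end Jet

section Embed

theorem ps_card {R : Type} [CommRing R] (h : #R ≤ continuum) : #(PowerSeries R) ≤ continuum := by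
  have h1 : #(PowerSeries R) ≤ #(ℕ → R) := by
    refine mk_le_of_injective (f := fun f n => PowerSeries.coeff n f) ?_
    intro f g hfg
    ext n
    exact congrFun hfg n
  have h2 : #(ℕ → R) = #R ^ ℵ₀ := by
    rw [← mk_nat, Cardinal.power_def]
  calc #(PowerSeries R) ≤ #R ^ ℵ₀ := h2 ▸ h1
    _ ≤ continuum ^ ℵ₀ := power_le_power_right h
    _ = continuum := continuum_power_aleph0

theorem mk_A_le : #A ≤ continuum := ps_card (ps_card mk_complex.le)

instance : CharZero A := by
  refine ⟨fun a b hab => ?_⟩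
  have := congrArg (fun f : A => PowerSeries.coeff 0 (PowerSeries.coeff 0 f)) hab
  have h1 : ∀ n : ℕ, PowerSeries.coeff 0 (PowerSeries.coeff 0 (n : A)) = (n : ℂ) := by
    intro n
    have : (n : A) = PowerSeries.C (PowerSeries.C (n : ℂ)) := by simp
    rw [this]; simp
  simp only [h1] at this
  exact_mod_cast this

theorem exists_embed : ∃ (ι : A →+* ℂ) (y : ℕ × ℕ → ℂ), Function.Injective (eval₂Hom ι y) := by
  let 𝓡 := MvPolynomial (ℕ × ℕ) A
  let F := FractionRing 𝓡
  let Ω := AlgebraicClosure F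
  have : CharZero 𝓡 := MvPolynomial.instCharZero _ _
  have : CharZero F := IsFractionRing.charZero 𝓡
  have : CharZero Ω := charZero_of_injective_algebraMap (algebraMap F Ω).injective
  have hR : #𝓡 ≤ continuum := by
    refine MvPolynomial.cardinalMk_le_max.trans ?_
    simp only [sup_le_iff]
    exact ⟨⟨mk_A_le, by simpa using aleph0_le_continuum⟩, aleph0_le_continuum⟩
  have hF : #F ≤ continuum := by
    rw [show #F = #𝓡 from mk_fractionRing 𝓡]; exact hR
  have hΩ : #Ω ≤ continuum := by
    refine (Algebra.IsAlgebraic.cardinalMk_le_max F Ω).trans ?_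
    simp only [sup_le_iff]
    exact ⟨hF, aleph0_le_continuum⟩
  have hinj : Function.Injective (algebraMap F Ω ∘ algebraMap 𝓡 F) :=
    (algebraMap F Ω).injective.comp (IsFractionRing.injective 𝓡 F)
  have hΩ' : continuum ≤ #Ω := by
    rw [← mk_complex]
    refine mk_le_of_injective (f := fun z : ℂ => algebraMap F Ω (algebraMap 𝓡 F
      (C (PowerSeries.C (PowerSeries.C z))))) ?_
    intro z w hzw
    have := MvPolynomial.C_injective _ _ (hinj hzw)
    exact PowerSeries.C_injective (PowerSeries.C_injective this)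
  have hcard : #Ω = #ℂ := by rw [mk_complex]; exact le_antisymm hΩ hΩ'
  obtain ⟨φ⟩ := IsAlgClosed.ringEquiv_of_equiv_of_charZero (K := Ω) (L := ℂ)
    (by rw [hcard, mk_complex]; exact aleph0_lt_continuum) (Cardinal.eq.1 hcard)
  let Φ : 𝓡 →+* ℂ := ((φ : Ω →+* ℂ).comp (algebraMap F Ω)).comp (algebraMap 𝓡 F)
  have hΦ : Function.Injective Φ := φ.injective.comp hinj
  refine ⟨Φ.comp C, fun v => Φ (X v), ?_⟩
  have : eval₂Hom (Φ.comp C) (fun v => Φ (X v)) = Φ := by
    apply MvPolynomial.ringHom_ext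
    · intro a; simp
    · intro v; simp
  rw [this]
  exact hΦ

end Embed

end Pool.Agent.K7.H99.DC
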