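import Mathlib

/-!
# Taylor homomorphisms for commuting derivations
-/

namespace Pool.Agent.K7.H99.DC

open PowerSeries

/-- A derivation over `ℚ` from an additive map satisfying the Leibniz rule. -/
noncomputable def mkDer {B : Type*} [CommRing B] [Algebra ℚ B] (f : B → B)
    (hadd : ∀ x y, f (x + y) = f x + f y) (hmul : ∀ x y, f (x * y) = x * f y + y * f x) :
    Derivation ℚ B B :=
  Derivation.mk' (AddMonoidHom.toRatLinearMap (AddMonoidHom.mk' f hadd)) (by
    intro a b
    exact hmul a b)

@[simp] theorem mkDer_apply {B : Type*} [CommRing B] [Algebra ℚ B] (f : B → B)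
    (hadd : ∀ x y, f (x + y) = f x + f y) (hmul : ∀ x y, f (x * y) = x * f y + y * f x) (x : B) :
    mkDer f hadd hmul x = f x := rfl

section Tay

variable {B : Type*} [CommRing B] [Algebra ℚ B] (d : Derivation ℚ B B)

/-- Taylor expansion along a derivation. -/
noncomputable def tay (b : B) : PowerSeries B :=
  PowerSeries.mk fun n => ((n.factorial : ℚ)⁻¹) • (d^[n] b)

theorem coeff_tay (b : B) (n : ℕ) :
    coeff n (tay d b) = ((n.factorial : ℚ)⁻¹) • (d^[n] b) := by
  simp [tay]

theorem nsmul_cancel {x y : B} (n : ℕ) (h : x * ((n : B) + 1) = y * ((n : B) + 1)) : x = y := by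
  have h1 : ((n : B) + 1) = algebraMap ℚ B ((n : ℚ) + 1) := by simp
  have h2 : algebraMap ℚ B ((n : ℚ) + 1) * algebraMap ℚ B (((n : ℚ) + 1)⁻¹) = 1 := by
    rw [← map_mul, mul_inv_cancel₀ (by positivity), map_one]
  rw [h1] at h
  calc x = x * (algebraMap ℚ B ((n : ℚ) + 1) * algebraMap ℚ B (((n : ℚ) + 1)⁻¹)) := by
        rw [h2, mul_one]
    _ = y * (algebraMap ℚ B ((n : ℚ) + 1) * algebraMap ℚ B (((n : ℚ) + 1)⁻¹)) := by
        rw [← mul_assoc, h, mul_assoc]
    _ = y := by rw [h2, mul_one]

theorem derivative_tay (b : B) : derivative B (tay d b) = tay d (d b) := by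
  ext n
  rw [coeff_derivative, coeff_tay, coeff_tay, Function.iterate_succ_apply]
  have h1 : ((n : B) + 1) = algebraMap ℚ B ((n : ℚ) + 1) := by simp
  rw [h1, mul_comm, ← Algebra.smul_def, smul_smul, Nat.factorial_succ]
  congr 1
  have : (n.factorial : ℚ) ≠ 0 := by positivity
  push_cast
  field_simp

theorem ps_ext {f g : PowerSeries B} (h0 : coeff 0 f = coeff 0 g)
    (h1 : ∀ n, coeff n f = coeff n g → coeff n (derivative B f) = coeff n (derivative B g)) :
    f = g := by
  ext n
  induction n with
  | zero => exact h0
  | succ n ih =>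
    have := h1 n ih
    rw [coeff_derivative, coeff_derivative] at this
    exact nsmul_cancel n this

theorem tay_mul (x y : B) : tay d (x * y) = tay d x * tay d y := by
  -- induct on the coefficient, for all x, y at once
  have key : ∀ n, ∀ x y : B, coeff n (tay d (x * y)) = coeff n (tay d x * tay d y) := by
    intro n
    induction n with
    | zero =>
      intro x y
      simp [coeff_tay, PowerSeries.coeff_mul]
    | succ n ih =>
      intro x y
      apply nsmul_cancel n
      rw [← coeff_derivative, ← coeff_derivative, derivative_tay, Derivation.leibniz,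
        Derivation.leibniz, derivative_tay, derivative_tay]
      have hadd : ∀ a b : B, tay d (a + b) = tay d a + tay d b := by
        intro a b
        ext m
        have : ∀ m, d^[m] (a + b) = d^[m] a + d^[m] b := by
          intro m
          induction m with
          | zero => simp
          | succ m ih => simp only [Function.iterate_succ_apply', ih, map_add]
        rw [map_add, coeff_tay, coeff_tay, coeff_tay, this, smul_add]
      rw [hadd, map_add, map_add, smul_eq_mul, smul_eq_mul, smul_eq_mul, smul_eq_mul, ih, ih]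
  ext n
  exact key n x y

theorem iter_add (m : ℕ) (a b : B) : d^[m] (a + b) = d^[m] a + d^[m] b := by
  induction m with
  | zero => simp
  | succ m ih => simp only [Function.iterate_succ_apply', ih, map_add]

theorem iter_smul (m : ℕ) (q : ℚ) (b : B) : d^[m] (q • b) = q • d^[m] b := by
  induction m with
  | zero => simp
  | succ m ih => rw [Function.iterate_succ_apply', Function.iterate_succ_apply', ih, d.map_smul]

theorem iter_one (m : ℕ) : d^[m + 1] (1 : B) = 0 := by
  induction m with
  | zero => simp
  | succ m ih => rw [Function.iterate_succ_apply', ih, map_zero]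

/-- The Taylor homomorphism. -/
noncomputable def tayHom : B →+* PowerSeries B where
  toFun := tay d
  map_one' := by
    ext n
    rw [coeff_tay]
    cases n with
    | zero => simp
    | succ n => rw [iter_one]; simp [PowerSeries.coeff_one]
  map_mul' := tay_mul d
  map_zero' := by
    ext n
    rw [coeff_tay]
    have : d^[n] (0 : B) = 0 := by
      induction n with
      | zero => simp
      | succ n ih => rw [Function.iterate_succ_apply', ih, map_zero]
    simp [this]
  map_add' a b := by
    ext m
    rw [map_add, coeff_tay, coeff_tay, coeff_tay, iter_add, smul_add]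

@[simp] theorem tayHom_apply (b : B) : tayHom d b = tay d b := rfl

/-- A derivation acting coefficientwise on power series. -/
noncomputable def coeffDer : Derivation ℚ (PowerSeries B) (PowerSeries B) :=
  mkDer (fun f => PowerSeries.mk fun n => d (coeff n f))
    (by intro x y; ext n; simp)
    (by
      intro x y
      ext n
      rw [map_add, coeff_mk, PowerSeries.coeff_mul, PowerSeries.coeff_mul, PowerSeries.coeff_mul,
        map_sum]
      simp only [coeff_mk, Derivation.leibniz, smul_eq_mul]
      rw [Finset.sum_add_distrib]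
      congr 1
      rw [← Finset.Nat.sum_antidiagonal_swap]
      rfl)

@[simp] theorem coeff_coeffDer (f : PowerSeries B) (n : ℕ) :
    coeff n (coeffDer d f) = d (coeff n f) := by
  simp [coeffDer]

/-- Formal derivative as a derivation over `ℚ`. -/
noncomputable def psDer (B : Type*) [CommRing B] [Algebra ℚ B] :
    Derivation ℚ (PowerSeries B) (PowerSeries B) :=
  mkDer (fun f => derivative B f) (by intro x y; exact map_add _ _ _)
    (by intro x y; rw [Derivation.leibniz]; rfl)

@[simp] theorem psDer_apply (f : PowerSeries B) : psDer B f = derivative B f := rfl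

end Tay

/-- The ring of double power series. -/
abbrev A : Type := PowerSeries (PowerSeries ℂ)

/-- Derivative in the outer variable. -/
noncomputable def p1 : Derivation ℚ A A := psDer (PowerSeries ℂ)

/-- Derivative in the inner variable. -/
noncomputable def p2 : Derivation ℚ A A := coeffDer (psDer ℂ)

theorem coeff_p1 (f : A) (n : ℕ) : coeff n (p1 f) = coeff (n + 1) f * (n + 1) := by
  simp [p1, coeff_derivative]

theorem coeff_p2 (f : A) (n : ℕ) : coeff n (p2 f) = derivative ℂ (coeff n f) := by
  simp [p2]

theorem p_comm (f : A) : p1 (p2 f) = p2 (p1 f) := by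
  ext m n
  rw [coeff_p1, coeff_p2, coeff_p2, coeff_p1, Derivation.leibniz]
  have h : derivative ℂ ((m : PowerSeries ℂ) + 1) = 0 := by
    rw [map_add, derivative_one, add_zero]
    exact Derivation.map_natCast _ m
  rw [h]
  simp [mul_comm]

section T

variable {B : Type*} [CommRing B] [Algebra ℚ B] (d1 d2 : Derivation ℚ B B) (ev : B →+* ℂ)

/-- The double Taylor homomorphism `B → ℂ[[X]][[X]]` with constant term `ev`. -/
noncomputable def T : B →+* A :=
  (PowerSeries.map ((PowerSeries.map ev).comp (tayHom d2))).comp (tayHom d1)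

theorem coeff_T (b : B) (m : ℕ) :
    coeff m (T d1 d2 ev b) =
      PowerSeries.map ev (tay d2 (((m.factorial : ℚ)⁻¹) • (d1^[m] b))) := by
  simp [T, coeff_tay]

theorem coeff_coeff_T (b : B) (m n : ℕ) :
    coeff n (coeff m (T d1 d2 ev b)) =
      ev (((n.factorial : ℚ)⁻¹) • ((m.factorial : ℚ)⁻¹) • (d2^[n] (d1^[m] b))) := by
  rw [coeff_T, PowerSeries.coeff_map, coeff_tay, iter_smul]

theorem const_T (b : B) : coeff 0 (coeff 0 (T d1 d2 ev b)) = ev b := by
  rw [coeff_coeff_T]
  simp

theorem T_eq_zero (b : B) (h : ∀ m n, ev (d2^[n] (d1^[m] b)) = 0) : T d1 d2 ev b = 0 := by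
  ext m n
  rw [coeff_coeff_T, Algebra.smul_def, Algebra.smul_def, map_mul, map_mul, h]
  simp

theorem p1_T (b : B) : p1 (T d1 d2 ev b) = T d1 d2 ev (d1 b) := by
  ext m : 1
  rw [coeff_p1]
  have h1 : tay d1 (d1 b) = derivative B (tay d1 b) := (derivative_tay d1 b).symm
  have : T d1 d2 ev (d1 b) =
      PowerSeries.map ((PowerSeries.map ev).comp (tayHom d2)) (derivative B (tay d1 b)) := by
    rw [← h1]; rfl
  rw [this, PowerSeries.coeff_map, coeff_derivative, map_mul]
  congr 1
  rw [map_add, map_one, map_natCast]

theorem iter_comm (hc : ∀ x, d1 (d2 x) = d2 (d1 x)) (m : ℕ) (b : B) :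
    d1^[m] (d2 b) = d2 (d1^[m] b) := by
  induction m with
  | zero => simp
  | succ m ih => rw [Function.iterate_succ_apply', Function.iterate_succ_apply', ih, hc]

theorem p2_T (hc : ∀ x, d1 (d2 x) = d2 (d1 x)) (b : B) :
    p2 (T d1 d2 ev b) = T d1 d2 ev (d2 b) := by
  ext m : 1
  rw [coeff_p2, coeff_T, coeff_T, iter_comm d1 d2 hc, ← d2.map_smul, ← derivative_tay]
  ext n
  simp [coeff_derivative]

end T

end Pool.Agent.K7.H99.DC
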